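import Pool.Agent.KS7_53.Gauss.Fin

/-!
# Gaussian power sums at multiples of `p - 1`: exactly when the valuation is `3`

For a prime `p ≥ 7` with `p % 4 = 3` and `r ≥ 1` let
`G = G_{r(p-1)}(p) = ∑_{1 ≤ a, b ≤ p - 1} (a + b i)^(r(p-1))`.

* If `r` is even, then `v_p(G) = 0`.
* If `r` is odd, then `G` is purely imaginary, `v_p(G) ≥ 3`, and
  `48 Im G = - p³ B_{p-3} r (r+1) (r+2) ε` modulo `p⁴`, with `ε = 5` if `p + 1 ∣ r + 1`,
  `ε = 7` if `p + 1 ∣ r + 3` and `ε = 8` otherwise.  Hence `v_p(G) = 3` exactly when `p` divides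
  neither `r (r+1) (r+2)` nor (the numerator of) the Bernoulli number `B_{p-3}`, and not both
  `p = 7` and `r = 5` modulo `8`.

Proof: `G = ∑_j C(n,j) i^j S(j) S(n-j)` with `S(j) = ∑ a^j`; modulo `p⁴` only `j = ±1`
modulo `p - 1` matter (reflection `a → p - a` to the second order), `S(m)/m` is constant modulo `p²`
for `m = -2` modulo `p - 1` (doubling), and the remaining sum
`∑_m (-1)^m C(n-3, m(p-1))` is evaluated in the field with `p²` elements.
-/

open Finset

namespace Pool.Agent.Results.MP_887aa5_nt.ExactValuations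

/-- `G_n(p) = ∑_{1 ≤ a, b ≤ p - 1} (a + b i)^n`. -/
def gaussSum (p n : ℕ) : GaussianInt :=
  ∑ a ∈ Finset.Icc 1 (p - 1), ∑ b ∈ Finset.Icc 1 (p - 1), (⟨(a : ℤ), (b : ℤ)⟩ : GaussianInt) ^ n

/-- `v_p(x + y i) = min (v_p x) (v_p y)`, with `v_p 0 = ⊤`. -/
noncomputable def val (p : ℕ) (z : GaussianInt) : ℕ∞ :=
  min (emultiplicity (p : ℤ) z.re) (emultiplicity (p : ℤ) z.im)

/-- The factor `ε`. -/
def eps (p r : ℕ) : ℤ := if (p + 1) ∣ r + 1 then 5 else if (p + 1) ∣ r + 3 then 7 else 8

theorem dvd_eps {p r : ℕ} (hp : p.Prime) (h7 : 7 ≤ p) :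
    (p : ℤ) ∣ eps p r ↔ (p = 7 ∧ r % 8 = 5) := by
  have key : ∀ k : ℕ, 0 < k → k ≤ 8 → (p : ℤ) ∣ (k : ℤ) → p ≤ k := by
    intro k hk _ h
    exact Nat.le_of_dvd hk (by exact_mod_cast h)
  constructor
  · intro h
    rw [eps] at h
    by_cases c1 : (p + 1) ∣ r + 1
    · rw [if_pos c1] at h
      have := key 5 (by norm_num) (by norm_num) (by exact_mod_cast h)
      omega
    · rw [if_neg c1] at h
      by_cases c3 : (p + 1) ∣ r + 3
      · rw [if_pos c3] at h
        have := key 7 (by norm_num) (by norm_num) (by exact_mod_cast h)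
        have hp7 : p = 7 := by omega
        subst hp7
        exact ⟨rfl, by omega⟩
      · rw [if_neg c3] at h
        have h2 : p ∣ 2 ^ 3 := by
          norm_num
          exact_mod_cast h
        have := Nat.le_of_dvd (by norm_num) (hp.dvd_of_dvd_pow h2)
        omega
  · rintro ⟨rfl, h5⟩
    have c1 : ¬ (7 + 1) ∣ r + 1 := by omega
    have c3 : (7 + 1) ∣ r + 3 := by omega
    rw [eps, if_neg c1, if_pos c3]
    norm_num

/-- **Complete answer to Q1.** For every prime `p ≥ 7` with `p = 3` modulo `4` and every `r ≥ 1`: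
if `r` is even then `v_p(G_{r(p-1)}(p)) = 0`; if `r` is odd then the valuation is at least `3`, it
is equal to `3` if and only if `p` does not divide `r (r+1) (r+2)`, `p` does not divide the
numerator of the Bernoulli number `B_{p-3}`, and not (`p = 7` and `r = 5` modulo `8`); moreover
the real part is `0`, and `48 Im G = - p³ B_{p-3} r (r+1) (r+2) ε` modulo `p⁴`. -/
theorem result (p : ℕ) (hp : p.Prime) (h4 : p % 4 = 3) (h7 : 7 ≤ p) (r : ℕ) (hr : 1 ≤ r) :
    (Even r → val p (gaussSum p (r * (p - 1))) = 0) ∧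
    (Odd r →
      3 ≤ val p (gaussSum p (r * (p - 1))) ∧
      (val p (gaussSum p (r * (p - 1))) = 3 ↔
        ¬ p ∣ r * (r + 1) * (r + 2) ∧ ¬ (p : ℤ) ∣ (bernoulli (p - 3)).num ∧
          ¬ (p = 7 ∧ r % 8 = 5)) ∧
      (gaussSum p (r * (p - 1))).re = 0 ∧
      (p : ℤ) ^ 4 ∣ 48 * (bernoulli (p - 3)).den * (gaussSum p (r * (p - 1))).im +
        p ^ 3 * ((bernoulli (p - 3)).num * (r * (r + 1) * (r + 2)) * eps p r)) := by
  have : Fact p.Prime := ⟨hp⟩
  have hprime : Prime (p : ℤ) := Nat.prime_iff_prime_int.1 hp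
  have hG : ∀ n, gaussSum p n = KS7_53.G p n := fun n => rfl
  refine ⟨fun he => ?_, fun ho => ?_⟩
  · have h := KS7_53.even_main (p := p) h4 h7 he hr
    rw [← hG] at h
    rw [val]
    by_cases c : (p : ℤ) ∣ (gaussSum p (r * (p - 1))).re
    · have c2 : ¬ (p : ℤ) ∣ (gaussSum p (r * (p - 1))).im := fun h' => h ⟨c, h'⟩
      rw [emultiplicity_eq_zero.2 c2]
      exact min_eq_right zero_le
    · rw [emultiplicity_eq_zero.2 c]
      exact min_eq_left zero_le
  · obtain ⟨g, hg, hdv⟩ := KS7_53.odd_main (p := p) h4 h7 ho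
    have hre : (gaussSum p (r * (p - 1))).re = 0 := KS7_53.G_re (KS7_53.n_mod h4 ho)
    rw [← hG] at hg
    have hval : val p (gaussSum p (r * (p - 1))) = 3 + emultiplicity (p : ℤ) g := by
      rw [val, hre, hg, emultiplicity_zero, top_inf_eq, emultiplicity_mul hprime,
        emultiplicity_pow_self_of_prime hprime]
      rfl
    obtain ⟨x, hx⟩ := KS7_53.hh_bern (p := p) h7
    have heps : KS7_53.eps p r = eps p r := rfl
    rw [heps] at hdv
    have hmain : (p : ℤ) ∣ 48 * (bernoulli (p - 3)).den * g +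
        (bernoulli (p - 3)).num * (r * (r + 1) * (r + 2)) * eps p r := by
      have h2 : (p : ℤ) ∣ 2 * (48 * (bernoulli (p - 3)).den * g +
          (bernoulli (p - 3)).num * (r * (r + 1) * (r + 2)) * eps p r) := by
        obtain ⟨y, hy⟩ := hdv
        refine ⟨y * (bernoulli (p - 3)).den - x * (r * (r + 1) * (r + 2)) * eps p r, ?_⟩
        linear_combination ((bernoulli (p - 3)).den : ℤ) * hy -
          ((r : ℤ) * (r + 1) * (r + 2)) * eps p r * hx
      rcases hprime.dvd_or_dvd h2 with h | h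
      · exfalso
        have h' : p ∣ 2 := by exact_mod_cast h
        have := Nat.le_of_dvd (by norm_num) h'
        omega
      · exact h
    have hiff : (p : ℤ) ∣ g ↔ (p : ℤ) ∣
        (bernoulli (p - 3)).num * (r * (r + 1) * (r + 2)) * eps p r := by
      constructor
      · intro h
        exact (dvd_add_right (h.mul_left _)).1 hmain
      · intro h
        have h2 := (dvd_add_left h).1 hmain
        rcases hprime.dvd_or_dvd h2 with h3 | h3
        · exfalso
          rcases hprime.dvd_or_dvd h3 with h4' | h4'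
          · have h5 : p ∣ 2 ^ 4 * 3 := by norm_num; exact_mod_cast h4'
            rcases (hp.dvd_mul).1 h5 with h6 | h6
            · have := Nat.le_of_dvd (by norm_num) (hp.dvd_of_dvd_pow h6); omega
            · have := Nat.le_of_dvd (by norm_num) h6; omega
          · exact KS7_53.den_bern h7 h4'
        · exact h3
    have hiff2 : (p : ℤ) ∣ g ↔ (p ∣ r * (r + 1) * (r + 2) ∨
        (p : ℤ) ∣ (bernoulli (p - 3)).num ∨ (p = 7 ∧ r % 8 = 5)) := by
      have hR : (p : ℤ) ∣ ((r : ℤ) * (r + 1) * (r + 2)) ↔ p ∣ r * (r + 1) * (r + 2) := by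
        rw [← Int.natCast_dvd_natCast]; push_cast; rfl
      rw [hiff, hprime.dvd_mul, hprime.dvd_mul, hR, dvd_eps hp h7]
      tauto
    refine ⟨?_, ?_, hre, ?_⟩
    · rw [hval]; exact le_self_add
    · have h3 : val p (gaussSum p (r * (p - 1))) = 3 ↔ ¬ (p : ℤ) ∣ g := by
        rw [hval, ← emultiplicity_eq_zero]
        constructor
        · intro h
          have h' : (3 : ℕ∞) + emultiplicity (p : ℤ) g = 3 + 0 := by rw [h, add_zero]
          exact ENat.add_right_injective_of_ne_top (by decide) h'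
        · intro h; rw [h, add_zero]
      rw [h3, hiff2]
      tauto
    · rw [hg]
      obtain ⟨z, hz⟩ := hmain
      exact ⟨z, by linear_combination ((p : ℤ) ^ 3) * hz⟩

end Pool.Agent.Results.MP_887aa5_nt.ExactValuations
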